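import Pool.Agent.Helper37.KD.DefsC
import Pool.Agent.Helper87.KD1.A5

/-! KD Part I, piece A5 (proved) -/

namespace KD

alias E1 := KD.I.A5.E1

alias E2 := KD.I.A5.E2

alias E2' := KD.I.A5.E2'

alias E3 := KD.I.A5.E3

end KD
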