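import Pool.Agent.Helper37.KD.DefsC
import Pool.Agent.Helper96.KD1.A1

/-! KD Part I, piece A1 (proved) -/

namespace KD

alias Qf_cv_le := KD.I.A1.Qf_cv_le

alias he_neg := KD.I.A1.he_neg

alias he_cv_le := KD.I.A1.he_cv_le

alias he_le_two := KD.I.A1.he_le_two

end KD
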