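import Pool.Agent.Helper37.KD.DefsC
import Pool.Agent.Helper31.KD1.C1

/-! KD Part I, piece C1 (proved) -/

namespace KD

alias Er_bound := KD.I.C1.Er_bound

end KD
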