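import Pool.Agent.Helper37.KD.DefsC
import Pool.Agent.Helper54.KD1.A3

/-! KD Part I, piece A3 (proved) -/

namespace KD

alias Qf_antisym := KD.I.A3.Qf_antisym

end KD
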