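import Pool.Agent.Helper37.KD.DefsC
import Pool.Agent.Helper50.KD1.C4

/-! KD Part I, piece C4 (proved) -/

namespace KD

alias x_diff_log := KD.I.C4.x_diff_log

alias x_diff_he := KD.I.C4.x_diff_he

end KD
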