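import Pool.Agent.Helper37.KD.DefsC
import Pool.Agent.Helper54.KD1.B2

/-! KD Part I, piece B2 (proved) -/

namespace KD

alias step_isP := KD.I.B2.step_isP

alias lev_Jop := KD.I.B2.lev_Jop

alias chain_isP := KD.I.B2.chain_isP

end KD
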