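import Pool.Agent.Helper37.KD.DefsC
import Pool.Agent.Helper7.KD1.B4

/-! KD Part I, piece B4 (proved) -/

namespace KD

alias Ik_le := KD.I.B4.Ik_le

alias Ik_nonneg := KD.I.B4.Ik_nonneg

alias Ek_nonneg := KD.I.B4.Ek_nonneg

end KD
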