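import Pool.Agent.Helper37.KD.DefsC
import Pool.Agent.Helper18.KD1.C5

/-! KD Part I, piece C5 (proved) -/

namespace KD

alias energy_transport := KD.I.C5.energy_transport

end KD
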