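import Pool.Agent.Helper37.KD.DefsC
import Pool.Agent.Helper30.KD1.D4

/-! KD Part I, piece D4 (proved) -/

namespace KD

alias Xk_le_two := KD.I.D4.Xk_le_two

alias Xk_nonneg := KD.I.D4.Xk_nonneg

alias Yk_nonneg := KD.I.D4.Yk_nonneg

end KD
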