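import Pool.Agent.Helper37.KD.DefsC
import Pool.Agent.Helper51.KD1.A2

/-! KD Part I, piece A2 (proved) -/

namespace KD

alias he_add_le := KD.I.A2.he_add_le

alias he_nsmul_le := KD.I.A2.he_nsmul_le

alias drift_iter := KD.I.A2.drift_iter

end KD
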