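import Pool.Agent.Helper37.KD.DefsC
import Pool.Agent.Helper46.KD1.D1

/-! KD Part I, piece D1 (proved) -/

namespace KD

alias he_vs_le := KD.I.D1.he_vs_le

end KD
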