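import Pool.Agent.Helper37.KD1.Det

/-! KD project: the occupation bound (deliverable of Part I, used by Part II) -/

namespace KD

alias det_occupation := KD.I.DET.det_occupation

end KD
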