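import Pool.Agent.Helper37.KD.DefsC
import Pool.Agent.Helper64.KD1.G1

/-! KD Part I, piece G1 (proved) -/

namespace KD

alias he_xs_tau := KD.I.G1.he_xs_tau

end KD
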