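import Pool.Agent.Helper37.KD.DefsC
import Pool.Agent.Helper28.KD1.D3

/-! KD Part I, piece D3 (proved) -/

namespace KD

alias Yk_zero_le := KD.I.D3.Yk_zero_le

alias Yk_succ_le := KD.I.D3.Yk_succ_le

end KD
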