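import Pool.Agent.Helper37.KD.DefsC
import Pool.Agent.Helper28.KD1.A6

/-! KD Part I, piece A6 (proved) -/

namespace KD

alias E4 := KD.I.A6.E4

alias E5 := KD.I.A6.E5

end KD
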