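import Pool.Agent.Helper37.KD.DefsC
import Pool.Agent.Helper9.KD1.D5

/-! KD Part I, piece D5 (proved) -/

namespace KD

alias entropy_incr_he := KD.I.D5.entropy_incr_he

end KD
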