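import Pool.Agent.Helper37.KD.DefsC
import Pool.Agent.Helper95.KD1.D6

/-! KD Part I, piece D6 (proved) -/

namespace KD

alias he_xs_le := KD.I.D6.he_xs_le

end KD
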