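import Pool.Agent.Helper37.KD.DefsC
import Pool.Agent.Helper43.KD1.D7

/-! KD Part I, piece D7 (proved) -/

namespace KD

alias entropy_incr := KD.I.D7.entropy_incr

end KD
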