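import Pool.Agent.Helper37.KD.DefsC
import Pool.Agent.Helper57.KD1.E5

/-! KD Part I, piece E5 (proved) -/

namespace KD

alias coef_error := KD.E5.coef_error

end KD
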