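import Pool.Agent.Helper37.KD.DefsC
import Pool.Agent.Helper33.KD1.G2

/-! KD Part I, piece G2 (proved) -/

namespace KD

alias x_var := KD.I.G2.x_var

end KD
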