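import Pool.Agent.Helper37.KD.DefsC
import Pool.Agent.Helper95.KD1.G3

/-! KD Part I, piece G3 (proved) -/

namespace KD

alias drift_chain := KD.I.G3.drift_chain

end KD
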