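import Pool.Agent.Helper37.KD.DefsC
import Pool.Agent.Helper39.KD1.H4

/-! KD Part I, piece H4 (proved) -/

namespace KD

alias lev_sup_le := KD.I.H4.lev_sup_le

alias entropy_upper := KD.I.H4.entropy_upper

end KD
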