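import Pool.Agent.Helper37.KD.DefsC
import Pool.Agent.Helper83.KD1.H6

/-! KD Part I, piece H6 (proved) -/

namespace KD

alias entropy_lower := KD.I.H6.entropy_lower

end KD
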