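import Pool.Agent.Helper37.KD.DefsC
import Pool.Agent.Helper4.KD1.S1

/-! KD Part I, piece S1 (proved) -/

namespace KD

alias sum_lemma := KD.I.S1.sum_lemma

end KD
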