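import Pool.Agent.Helper37.KD.DefsC
import Pool.Agent.Helper18.KD1.S2

/-! KD Part I, piece S2 (proved) -/

namespace KD

alias energy_average := KD.I.S2.energy_average

end KD
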