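import Pool.Agent.Helper37.KD.Class
import Pool.Agent.Helper33.KD2.Asm3

/-! KD project: the growth lemma (deliverable of Part II, used by Part IV; proved) -/

namespace KD

alias growth_lemma := KD.II.growth_lemma

end KD
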