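import Pool.Agent.Helper37.KD.St.A1
import Pool.Agent.Helper37.KD.St.A2
import Pool.Agent.Helper37.KD.St.A3
import Pool.Agent.Helper37.KD.St.A4
import Pool.Agent.Helper37.KD.St.A5
import Pool.Agent.Helper37.KD.St.A6
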