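import Pool.Agent.Helper37.KD.St.B1
import Pool.Agent.Helper37.KD.St.B2
import Pool.Agent.Helper37.KD.St.B3
import Pool.Agent.Helper37.KD.St.B4
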