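import Pool.Agent.Helper37.KD.DefsC
import Pool.Agent.Helper78.KD1.F2

/-! KD Part I, piece F2 (proved) -/

namespace KD

alias far_split := KD.I.F2.far_split

end KD
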