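import Pool.Agent.Helper37.KD.DefsC
import Pool.Agent.Helper9.KD1.F1

/-! KD Part I, piece F1 (proved) -/

namespace KD

alias hell_add := KD.I.F1.hell_add

alias hell_tri := KD.I.F1.hell_tri

end KD
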