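import Pool.Agent.Helper37.KD.DefsC
import Pool.Agent.Helper45.KD1.F4

/-! KD Part I, piece F4 (proved) -/

namespace KD

alias drift_jump := KD.I.F4.drift_jump

end KD
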