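import Pool.Agent.Helper37.KD.St.F1
import Pool.Agent.Helper37.KD.St.F2
import Pool.Agent.Helper37.KD.St.F3
import Pool.Agent.Helper37.KD.St.F4
import Pool.Agent.Helper37.KD.St.F5
import Pool.Agent.Helper37.KD.St.F6
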