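import Pool.Agent.Helper37.KD.St.G1
import Pool.Agent.Helper37.KD.St.G2
import Pool.Agent.Helper37.KD.St.G3
import Pool.Agent.Helper37.KD.St.G4
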