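import Pool.Agent.Helper37.KD.DefsC
import Pool.Agent.Helper48.KD1.H7

/-! KD Part I, piece H7 (proved) -/

namespace KD

alias occ_bound := KD.I.H7.occ_bound

end KD
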