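import Pool.Agent.Helper37.KD.St.H1
import Pool.Agent.Helper37.KD.St.H2
import Pool.Agent.Helper37.KD.St.H3
import Pool.Agent.Helper37.KD.St.H4
import Pool.Agent.Helper37.KD.St.H5
import Pool.Agent.Helper37.KD.St.H6
import Pool.Agent.Helper37.KD.St.H7
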