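import Pool.Agent.Helper37.KD.DefsC
import Pool.Agent.Helper90.KD1.N5

/-! KD Part I, piece N5 (proved) -/

namespace KD

alias ker_exists := KD.I.N5.ker_exists

end KD
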