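import Pool.Agent.Helper37.KD.St.N1
import Pool.Agent.Helper37.KD.St.N2
import Pool.Agent.Helper37.KD.St.N3
import Pool.Agent.Helper37.KD.St.N4
import Pool.Agent.Helper37.KD.St.N5
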