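import Pool.Agent.Helper37.KD.DefsC
import Pool.Agent.Helper32.KD1.N1

/-! KD Part I, piece N1 (proved) -/

namespace KD

alias theta_exists := KD.I.N1.theta_exists

end KD
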